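import Pool.Agent.Q215.WR.Stm

/-! Job WR-SRC: a set with a frontier unbounded on both sides (`S_src`). -/

set_option autoImplicit false

open Set Topology Filter

namespace Pool.Agent.Q204.WR

open Pool.Agent.Q215.WR

def MixR (B : Set ℝ) : Prop := ∀ R : ℝ, (∃ x, R < x ∧ x ∈ B) ∧ ∃ x, R < x ∧ x ∉ B

def MixL (B : Set ℝ) : Prop := ∀ R : ℝ, (∃ x, x < R ∧ x ∈ B) ∧ ∃ x, x < R ∧ x ∉ B

theorem front {B s : Set ℝ} (hs : IsPreconnected s) (h1 : (s ∩ B).Nonempty)
    (h2 : (s ∩ Bᶜ).Nonempty) : ∃ z ∈ s, z ∈ frontier B := by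
  by_contra hno
  push Not at hno
  obtain ⟨z, hz, hz1, hz2⟩ := hs (interior B) (interior Bᶜ) isOpen_interior isOpen_interior
    (fun z hz => by
      by_cases hB : z ∈ B
      · left
        by_contra h3
        exact hno z hz ⟨subset_closure hB, h3⟩
      · right
        by_contra h3
        apply hno z hz
        rw [← frontier_compl]
        exact ⟨subset_closure hB, h3⟩)
    (by
      obtain ⟨z, hz, hzB⟩ := h1
      refine ⟨z, hz, ?_⟩
      by_contra h3
      exact hno z hz ⟨subset_closure hzB, h3⟩)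
    (by
      obtain ⟨z, hz, hzB⟩ := h2
      refine ⟨z, hz, ?_⟩
      by_contra h3
      apply hno z hz
      rw [← frontier_compl]
      exact ⟨subset_closure hzB, h3⟩)
  exact interior_subset hz2 (interior_subset hz1)

theorem unb_of {B : Set ℝ} (hR : MixR B) (hL : MixL B) : Unb B := by
  intro R
  constructor
  · obtain ⟨⟨x, hx, hxB⟩, y, hy, hyB⟩ := hR R
    obtain ⟨z, hz, hzB⟩ := front (s := Ioi R) (B := B) isPreconnected_Ioi
      ⟨x, hx, hxB⟩ ⟨y, hy, hyB⟩
    exact ⟨z, hzB, hz⟩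
  · obtain ⟨⟨x, hx, hxB⟩, y, hy, hyB⟩ := hL R
    obtain ⟨z, hz, hzB⟩ := front (s := Iio R) (B := B) isPreconnected_Iio
      ⟨x, hx, hxB⟩ ⟨y, hy, hyB⟩
    exact ⟨z, hzB, hz⟩

theorem red_refl (A : Set ℝ) : Red A A := ⟨id, continuous_id, rfl⟩

theorem red_trans {A B C : Set ℝ} (h1 : Red A B) (h2 : Red B C) : Red A C := by
  obtain ⟨f, hf, rfl⟩ := h1
  obtain ⟨g, hg, rfl⟩ := h2
  exact ⟨g ∘ f, hg.comp hf, rfl⟩

theorem ind_of {B : Set ℝ} (hB : InD B) {g h : ℝ → ℝ} (hg : Continuous g) (hh : Continuous h)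
    (H : ∀ x, g (h x) ∈ B ↔ x ∈ B) : InD (g ⁻¹' B) ∧ Red B (g ⁻¹' B) ∧ Red (g ⁻¹' B) B := by
  have h1 : B = h ⁻¹' (g ⁻¹' B) := by
    ext x
    exact (H x).symm
  have h2 : Red (g ⁻¹' B) B := ⟨g, hg, rfl⟩
  refine ⟨⟨red_trans h2 hB.1, fun ho => hB.2.1 ?_, fun hc => hB.2.2 ?_⟩, ⟨h, hh, h1⟩, h2⟩
  · rw [h1]
    exact ho.preimage hh
  · rw [h1]
    exact hc.preimage hh

theorem ne_of {B : Set ℝ} (hB : InD B) : (∃ x, x ∈ B) ∧ ∃ x, x ∉ B := by
  constructor
  · by_contra h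
    push Not at h
    apply hB.2.1
    rw [eq_empty_of_forall_notMem h]
    exact isOpen_empty
  · by_contra h
    push Not at h
    apply hB.2.1
    rw [eq_univ_of_forall h]
    exact isOpen_univ

theorem osc (b y R : ℝ) : ∃ t, R < t ∧ 0 < t ∧ b + t * Real.cos t = y := by
  obtain ⟨n, hn⟩ := exists_nat_gt (max R |y - b|)
  have hn0 : (0 : ℝ) ≤ n := n.cast_nonneg
  have hn1 : R < n := (le_max_left _ _).trans_lt hn
  have hn2 : |y - b| < n := (le_max_right _ _).trans_lt hn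
  have hn3 := abs_lt.1 hn2
  have hpi := Real.pi_gt_three
  have hc1 : Real.cos (n * (2 * Real.pi)) = 1 := Real.cos_nat_mul_two_pi n
  have hc2 : Real.cos (n * (2 * Real.pi) + Real.pi) = -1 := by
    rw [Real.cos_add_pi, hc1]
  have hcont : ContinuousOn (fun t => b + t * Real.cos t)
      (Icc (n * (2 * Real.pi)) (n * (2 * Real.pi) + Real.pi)) := by fun_prop
  have hle : (n : ℝ) * (2 * Real.pi) ≤ n * (2 * Real.pi) + Real.pi := by linarith
  have hbig : (n : ℝ) ≤ n * (2 * Real.pi) := by nlinarith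
  have hmem : y ∈ Icc (b + (n * (2 * Real.pi) + Real.pi) * Real.cos (n * (2 * Real.pi) + Real.pi))
      (b + (n * (2 * Real.pi)) * Real.cos (n * (2 * Real.pi))) := by
    rw [hc1, hc2]
    constructor <;> linarith [hn3.1, hn3.2]
  obtain ⟨t, ht, hty⟩ := intermediate_value_Icc' hle hcont hmem
  have hn4 : (0 : ℝ) < n := (abs_nonneg _).trans_lt hn2
  exact ⟨t, by linarith [ht.1], by linarith [ht.1], hty⟩

theorem stepR {B : Set ℝ} (hB : InD B) :
    ∃ B', InD B' ∧ MixR B' ∧ (MixL B → MixL B') ∧ Red B B' ∧ Red B' B := by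
  by_cases hm : MixR B
  · exact ⟨B, hB, hm, id, red_refl B, red_refl B⟩
  obtain ⟨b, hb⟩ : ∃ b, ∀ x, b ≤ x → (x ∈ B ↔ b ∈ B) := by
    simp only [MixR, not_forall, not_and_or] at hm
    obtain ⟨R, hR | hR⟩ := hm
    · push Not at hR
      refine ⟨R + 1, fun x hx => ?_⟩
      have h1 := hR x (by linarith)
      have h2 := hR (R + 1) (by linarith)
      tauto
    · push Not at hR
      refine ⟨R + 1, fun x hx => ?_⟩
      have h1 := hR x (by linarith)
      have h2 := hR (R + 1) (by linarith)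
      tauto
  let g : ℝ → ℝ := fun x => min x b + max (x - b) 0 * Real.cos (max (x - b) 0)
  have hg : Continuous g := by fun_prop
  have hg1 : ∀ x, x ≤ b → g x = x := by
    intro x hx
    simp only [g]
    rw [min_eq_left hx, max_eq_right (by linarith)]
    ring
  have hg2 : ∀ t, 0 ≤ t → g (b + t) = b + t * Real.cos t := by
    intro t ht
    simp only [g]
    rw [min_eq_right (by linarith), add_sub_cancel_left, max_eq_left ht]
  have hg3 : ∀ y R, ∃ x, R < x ∧ g x = y := by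
    intro y R
    obtain ⟨t, ht, ht0, hty⟩ := osc b y (R - b)
    exact ⟨b + t, by linarith, by rw [hg2 t ht0.le, hty]⟩
  obtain ⟨h1, h2, h3⟩ := ind_of hB hg (h := fun x => min x b) (by fun_prop) fun x => by
    rw [hg1 _ (min_le_right _ _)]
    rcases le_total x b with hx | hx
    · rw [min_eq_left hx]
    · rw [min_eq_right hx]
      exact (hb x hx).symm
  obtain ⟨⟨p, hp⟩, q, hq⟩ := ne_of hB
  refine ⟨g ⁻¹' B, h1, fun R => ⟨?_, ?_⟩, fun hL R => ⟨?_, ?_⟩, h2, h3⟩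
  · obtain ⟨x, hx, hxp⟩ := hg3 p R
    exact ⟨x, hx, by rw [mem_preimage, hxp]; exact hp⟩
  · obtain ⟨x, hx, hxp⟩ := hg3 q R
    exact ⟨x, hx, by rw [mem_preimage, hxp]; exact hq⟩
  · obtain ⟨⟨x, hx, hxB⟩, -⟩ := hL (min R b)
    exact ⟨x, hx.trans_le (min_le_left _ _), by
      rw [mem_preimage, hg1 x (hx.le.trans (min_le_right _ _))]; exact hxB⟩
  · obtain ⟨-, x, hx, hxB⟩ := hL (min R b)
    exact ⟨x, hx.trans_le (min_le_left _ _), by
      rw [mem_preimage, hg1 x (hx.le.trans (min_le_right _ _))]; exact hxB⟩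

theorem stepL {B : Set ℝ} (hB : InD B) :
    ∃ B', InD B' ∧ MixL B' ∧ (MixR B → MixR B') ∧ Red B B' ∧ Red B' B := by
  by_cases hm : MixL B
  · exact ⟨B, hB, hm, id, red_refl B, red_refl B⟩
  obtain ⟨b, hb⟩ : ∃ b, ∀ x, x ≤ b → (x ∈ B ↔ b ∈ B) := by
    simp only [MixL, not_forall, not_and_or] at hm
    obtain ⟨R, hR | hR⟩ := hm
    · push Not at hR
      refine ⟨R - 1, fun x hx => ?_⟩
      have h1 := hR x (by linarith)
      have h2 := hR (R - 1) (by linarith)
      tauto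
    · push Not at hR
      refine ⟨R - 1, fun x hx => ?_⟩
      have h1 := hR x (by linarith)
      have h2 := hR (R - 1) (by linarith)
      tauto
  let g : ℝ → ℝ := fun x => max x b + max (b - x) 0 * Real.cos (max (b - x) 0)
  have hg : Continuous g := by fun_prop
  have hg1 : ∀ x, b ≤ x → g x = x := by
    intro x hx
    simp only [g]
    rw [max_eq_left hx, max_eq_right (by linarith)]
    ring
  have hg2 : ∀ t, 0 ≤ t → g (b - t) = b + t * Real.cos t := by
    intro t ht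
    simp only [g]
    rw [max_eq_right (by linarith), sub_sub_cancel, max_eq_left ht]
  have hg3 : ∀ y R, ∃ x, x < R ∧ g x = y := by
    intro y R
    obtain ⟨t, ht, ht0, hty⟩ := osc b y (b - R)
    exact ⟨b - t, by linarith, by rw [hg2 t ht0.le, hty]⟩
  obtain ⟨h1, h2, h3⟩ := ind_of hB hg (h := fun x => max x b) (by fun_prop) fun x => by
    rw [hg1 _ (le_max_right _ _)]
    rcases le_total x b with hx | hx
    · rw [max_eq_right hx]
      exact (hb x hx).symm
    · rw [max_eq_left hx]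
  obtain ⟨⟨p, hp⟩, q, hq⟩ := ne_of hB
  refine ⟨g ⁻¹' B, h1, fun R => ⟨?_, ?_⟩, fun hL R => ⟨?_, ?_⟩, h2, h3⟩
  · obtain ⟨x, hx, hxp⟩ := hg3 p R
    exact ⟨x, hx, by rw [mem_preimage, hxp]; exact hp⟩
  · obtain ⟨x, hx, hxp⟩ := hg3 q R
    exact ⟨x, hx, by rw [mem_preimage, hxp]; exact hq⟩
  · obtain ⟨⟨x, hx, hxB⟩, -⟩ := hL (max R b)
    exact ⟨x, (le_max_left _ _).trans_lt hx, by
      rw [mem_preimage, hg1 x ((le_max_right _ _).trans hx.le)]; exact hxB⟩
  · obtain ⟨-, x, hx, hxB⟩ := hL (max R b)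
    exact ⟨x, (le_max_left _ _).trans_lt hx, by
      rw [mem_preimage, hg1 x ((le_max_right _ _).trans hx.le)]; exact hxB⟩

/-- `S_src`, also without the hypothesis `S_basic` -/
theorem src_all : ∀ B : Set ℝ, InD B → ∃ B' : Set ℝ, InD B' ∧ Unb B' ∧ Red B B' ∧ Red B' B := by
  intro B hB
  obtain ⟨B1, h1, hR, -, h2, h3⟩ := stepR hB
  obtain ⟨B2, h4, hL, hR2, h5, h6⟩ := stepL h1
  exact ⟨B2, h4, unb_of (hR2 hR) hL, red_trans h2 h5, red_trans h6 h3⟩

theorem t_src : S_src := fun _ => src_all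

end Pool.Agent.Q204.WR
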