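import Pool.Agent.Q215.WR.Stm
import Pool.Agent.Q204.WR.Src

/-! Job WR-B0: sets with dense complementary plateaus (`S_B0`). -/

set_option autoImplicit false

open Set Topology Filter

namespace Pool.Agent.Q204.WR

open Pool.Agent.Q215.WR

theorem quot_of {p : ℝ → ℝ} (hm : Monotone p) (hc : Continuous p) (hs : Function.Surjective p) :
    IsQuotientMap p := by
  have h1 : Tendsto p atTop atTop :=
    tendsto_atTop_atTop_of_monotone hm fun b => by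
      obtain ⟨a, ha⟩ := hs b
      exact ⟨a, ha.ge⟩
  have h2 : Tendsto p atBot atBot :=
    tendsto_atBot_atBot_of_monotone hm fun b => by
      obtain ⟨a, ha⟩ := hs b
      exact ⟨a, ha.le⟩
  have h3 : Tendsto p (cocompact ℝ) (cocompact ℝ) := by
    rw [cocompact_eq_atBot_atTop]
    exact h2.sup_sup h1
  have h4 : IsProperMap p := isProperMap_iff_tendsto_cocompact.2 ⟨hc, h3⟩
  exact h4.isClosedMap.isQuotientMap hc hs

theorem t_B0 : S_B0 := by
  intro hbasic hplat A hA hint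
  obtain ⟨hPI, -, -⟩ := hbasic A hA.1
  obtain ⟨D0, hD0A, hD0c, hD0d⟩ :=
    (TopologicalSpace.IsSeparable.of_separableSpace Aᶜ).exists_countable_dense_subset
  obtain ⟨p, hpm, hpc, hps, hpf⟩ := hplat D0 hD0c
  have hq := quot_of hpm hpc hps
  have hBA : Red (p ⁻¹' A) A := ⟨p, hpc, rfl⟩
  refine ⟨p ⁻¹' A, ⟨red_trans hBA hA.1, fun ho => hA.2.1 (hq.isOpen_preimage.1 ho),
    fun hc => hA.2.2 (hq.isClosed_preimage.1 hc)⟩, hBA, ?_⟩
  rintro ⟨g, hg, hgA⟩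
  obtain ⟨⟨x1, hx1⟩, x2, hx2⟩ := ne_of hA
  have key : ∀ y1 y2 : ℝ, y1 < y2 → (y1 ∉ A ∨ y2 ∉ A) → ∃ d ∈ D0, y1 < d ∧ d < y2 := by
    intro y1 y2 h12 hor
    have h1 : ¬ Ioo y1 y2 ⊆ A := by
      intro hsub
      have h2 := (hPI y1 y2 h12).1 hsub
      rcases hor with h | h
      · exact h (h2 (left_mem_Icc.2 h12.le))
      · exact h (h2 (right_mem_Icc.2 h12.le))
    obtain ⟨z, hz, hzA⟩ := not_subset.1 h1
    obtain ⟨d, hd, hdD⟩ := mem_closure_iff.1 (hD0d hzA) (Ioo y1 y2) isOpen_Ioo hz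
    exact ⟨d, hdD, hd.1, hd.2⟩
  have hb1 : p (g x1) ∈ A := by
    rw [hgA] at hx1
    exact hx1
  have hb2 : p (g x2) ∉ A := by
    rw [hgA] at hx2
    exact hx2
  -- a plateau between `g x1` and `g x2`
  have hpl : ∃ a b, a < b ∧ Ioo a b ⊆ uIcc (g x1) (g x2) ∧ ∀ w ∈ Ioo a b, p w ∉ A := by
    have hfl : ∀ d ∈ D0, ∀ y1 y2 : ℝ, p y1 < d → d < p y2 →
        ∃ a b, a < b ∧ Ioo a b ⊆ Icc y1 y2 ∧ ∀ w ∈ Ioo a b, p w ∉ A := by
      intro d hd y1 y2 h1 h2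
      obtain ⟨a, b, hab, ha, hb⟩ := (hpf d).2 hd
      refine ⟨a, b, hab, ?_, ?_⟩
      · have h3 : y1 < a := hpm.reflect_lt (by rw [ha]; exact h1)
        have h4 : b < y2 := hpm.reflect_lt (by rw [hb]; exact h2)
        exact fun w hw => ⟨(h3.trans hw.1).le, (hw.2.trans h4).le⟩
      · intro w hw
        have h5 : p w = d := le_antisymm (hb ▸ hpm hw.2.le) (ha ▸ hpm hw.1.le)
        rw [h5]
        exact hD0A hd
    rcases lt_trichotomy (p (g x1)) (p (g x2)) with h | h | h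
    · obtain ⟨d, hd, h1, h2⟩ := key _ _ h (Or.inr hb2)
      obtain ⟨a, b, hab, h3, h4⟩ := hfl d hd _ _ h1 h2
      exact ⟨a, b, hab, h3.trans Icc_subset_uIcc, h4⟩
    · exact absurd (h ▸ hb1) hb2
    · obtain ⟨d, hd, h1, h2⟩ := key _ _ h (Or.inl hb2)
      obtain ⟨a, b, hab, h3, h4⟩ := hfl d hd _ _ h1 h2
      exact ⟨a, b, hab, h3.trans Icc_subset_uIcc', h4⟩
  obtain ⟨a, b, hab, h1, h2⟩ := hpl
  have h3 : (a + b) / 2 ∈ Ioo a b := ⟨by linarith, by linarith⟩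
  obtain ⟨z, -, hz⟩ := intermediate_value_uIcc hg.continuousOn (h1 h3)
  have h4 : g ⁻¹' (Ioo a b) ⊆ interior Aᶜ := by
    refine interior_maximal ?_ (isOpen_Ioo.preimage hg)
    intro w hw hwA
    rw [hgA] at hwA
    exact h2 _ hw hwA
  have h5 : z ∈ interior Aᶜ := h4 (by rw [mem_preimage, hz]; exact h3)
  rw [hint] at h5
  exact h5

end Pool.Agent.Q204.WR
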